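import Pool.Agent.TH940.SD.Base

/-!
# Project SD, G8: the theorem of Stokes on the manifold
-/

open scoped ContDiff Topology
open MeasureTheory Set

noncomputable section

namespace Pool.Agent.TH940.SD

open Pool.Agent.TH179.SD

/-! ### linear algebra: the pullback of a top form -/

/-- the enumeration of the real basis -/
def en : (Σ _ : Fin 4, Fin 2) ≃ Fin (7 + 1) :=
  (Equiv.sigmaEquivProd (Fin 4) (Fin 2)).trans (finProdFinEquiv (m := 4) (n := 2))

/-- the real basis of `V` -/
def bs : Module.Basis (Fin (7 + 1)) ℝ V :=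
  (Pi.basis fun _ : Fin 4 => Complex.basisOneI).reindex en

theorem bs_eq : ⇑bs = rb := by
  funext i
  obtain ⟨⟨a, s⟩, rfl⟩ := en.surjective i
  have hv : ((en ⟨a, s⟩ : Fin (7 + 1)) : ℕ) = (s : ℕ) + 2 * (a : ℕ) := rfl
  have h1 : ((s : ℕ) + 2 * (a : ℕ)) / 2 = a := by omega
  have h2 : ((s : ℕ) + 2 * (a : ℕ)) % 2 = s := by omega
  rw [bs, Module.Basis.reindex_apply, Equiv.symm_apply_apply, rb]
  simp only [hv, h1, h2, Pi.basis_apply, Fin.eta]
  fin_cases s <;> simp

theorem alt_det (a : V [⋀^Fin (7 + 1)]→L[ℝ] ℝ) (L : V →L[ℝ] V) :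
    a.compContinuousLinearMap L rb = L.det * a rb := by
  have e : a.compContinuousLinearMap L rb = a (fun i => L (bs i)) := by
    rw [bs_eq]
    rfl
  rw [e, ← bs_eq]
  have h1 := a.toAlternatingMap.eq_smul_basis_det bs
  have h2 : ∀ v, a v = a.toAlternatingMap bs * bs.det v := by
    intro v
    have := congrArg (fun g : V [⋀^Fin (7 + 1)]→ₗ[ℝ] ℝ => g v) h1
    simpa using this
  have h3 : bs.det (fun i => L (bs i))
        = LinearMap.det (L : V →ₗ[ℝ] V) * bs.det bs :=
      Module.Basis.det_comp bs (L : V →ₗ[ℝ] V) bs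
  rw [h2 (fun i => L (bs i)), h2 bs, h3, Module.Basis.det_self]
  have h4 : L.det = LinearMap.det (L : V →ₗ[ℝ] V) := rfl
  rw [h4]
  ring

/-! ### integration by parts -/

theorem int_fderiv {F : V → ℝ} (hF : ContDiff ℝ ∞ F) (hc : HasCompactSupport F) (v : V) :
    ∫ z, fderiv ℝ F z v = 0 := by
  have hcd : HasCompactSupport (fun z => fderiv ℝ F z v) := hc.fderiv_apply ℝ v
  have hct : Continuous (fun z => fderiv ℝ F z v) :=
    (hF.continuous_fderiv (by simp)).clm_apply continuous_const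
  have := integral_mul_fderiv_eq_neg_fderiv_mul_of_integrable (μ := volume) (𝕜 := ℝ)
    (f := fun _ : V => (1 : ℝ)) (g := F) (v := v) (by simp)
    (by simpa using hct.integrable_of_hasCompactSupport hcd)
    (by simpa using hF.continuous.integrable_of_hasCompactSupport hc)
    (fun x _ => differentiableAt_const _)
    (fun x _ => hF.contDiffAt.differentiableAt (by simp))
  simpa using this

theorem int_extDeriv {γ : V → Alt 7} (hγ : ContDiff ℝ ∞ γ) (hc : HasCompactSupport γ)
    (v : Fin (7 + 1) → V) :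
    ∫ z, (extDeriv γ z : V [⋀^Fin (7 + 1)]→L[ℝ] ℝ) v = 0 := by
  have hs : ∀ w : Fin 7 → V, ContDiff ℝ ∞ (fun z => γ z w) := fun w =>
    (ContinuousAlternatingMap.apply ℝ V ℝ w).contDiff.comp hγ
  have hcs : ∀ w : Fin 7 → V, HasCompactSupport (fun z => γ z w) := fun w =>
    hc.comp_left (g := fun a : Alt 7 => a w) rfl
  have h2 : ∀ z, (extDeriv γ z : V [⋀^Fin (7 + 1)]→L[ℝ] ℝ) v
      = ∑ i : Fin (7 + 1), (-1 : ℝ) ^ (i : ℕ) * fderiv ℝ (fun z => γ z (i.removeNth v)) z (v i) := by
    intro z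
    rw [extDeriv_apply (hγ.contDiffAt.differentiableAt (by simp))]
    refine Finset.sum_congr rfl fun i _ => ?_
    rw [zsmul_eq_mul]
    push_cast
    rfl
  simp_rw [h2]
  rw [integral_finsetSum]
  · refine Finset.sum_eq_zero fun i _ => ?_
    rw [integral_const_mul, int_fderiv (hs _) (hcs _), mul_zero]
  · intro i _
    refine Integrable.const_mul ?_ _
    exact (((hs _).continuous_fderiv (by simp)).clm_apply
      continuous_const).integrable_of_hasCompactSupport ((hcs _).fderiv_apply ℝ _)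

theorem extDeriv_of_eventually_zero {k : ℕ} {f : V → Alt k} {y : V}
    (h : ∀ᶠ z in 𝓝 y, f z = 0) : extDeriv f y = 0 := by
  have h1 : f =ᶠ[𝓝 y] fun _ => 0 := h
  rw [h1.extDeriv_eq]
  have h2 : fderiv ℝ (fun _ : V => (0 : Alt k)) y = 0 := by simp
  rw [extDeriv, h2]
  ext v
  simp [ContinuousAlternatingMap.alternatizeUncurryFin_apply]

/-! ### the coordinate changes -/

variable {M : Type} [TopologicalSpace M]

/-- the exterior derivative is compatible with the coordinate changes -/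
theorem ext_compat (hS : TaskSmooth) {k : ℕ} {w : Idx → V → Alt k} (hw : IsF k w) (c d : Idx)
    {q : V} (hq : q ∈ O c d) :
    extDeriv (w c) q =
      (extDeriv (w d) (tr c d q)).compContinuousLinearMap (fderiv ℝ (tr c d) q) := by
  have h1 : w c =ᶠ[𝓝 q] fun x => (w d (tr c d x)).compContinuousLinearMap (fderiv ℝ (tr c d) x) := by
    filter_upwards [(hS c d).1.mem_nhds hq] with x hx
    exact hw.compat c d x hx
  rw [h1.extDeriv_eq]
  exact extDeriv_pullback (r := ∞) ((hw.smooth d).contDiffAt.differentiableAt (by simp))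
    ((hS c d).2.2.1.contDiffAt ((hS c d).1.mem_nhds hq)) (by
      rw [minSmoothness_of_isRCLikeNormedField]
      exact WithTop.coe_le_coe.2 le_top)

/-- the change of variables between two charts -/
theorem change (hS : TaskSmooth) (D : Model M) (c d : Idx) (f : M → ℝ)
    (Ψ : Idx → V → V [⋀^Fin (7 + 1)]→L[ℝ] ℝ)
    (hΨ : ∀ q ∈ O c d, Ψ c q = (Ψ d (tr c d q)).compContinuousLinearMap (fderiv ℝ (tr c d) q)) :
    ∫ q in O c d, f ((D.φ c).symm q) * Ψ c q rb = ∫ q in O d c, f ((D.φ d).symm q) * Ψ d q rb := by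
  have himg : tr c d '' O c d = O d c := by
    ext y
    constructor
    · rintro ⟨x, hx, rfl⟩
      exact ((hS c d).2.2.2.1 x hx).1
    · intro hy
      exact ⟨tr d c y, ((hS d c).2.2.2.1 y hy).1, ((hS d c).2.2.2.1 y hy).2⟩
  have hinj : InjOn (tr c d) (O c d) := by
    intro x hx y hy hxy
    rw [← ((hS c d).2.2.2.1 x hx).2, hxy, ((hS c d).2.2.2.1 y hy).2]
  have hd : ∀ x ∈ O c d, HasFDerivWithinAt (tr c d) (fderiv ℝ (tr c d) x) (O c d) x := by
    intro x hx
    exact (((hS c d).2.2.1.contDiffAt ((hS c d).1.mem_nhds hx)).differentiableAt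
      (by simp)).hasFDerivAt.hasFDerivWithinAt
  have h := integral_image_eq_integral_abs_det_fderiv_smul volume
    (hS c d).1.measurableSet hd hinj (fun q => f ((D.φ d).symm q) * Ψ d q rb)
  rw [himg] at h
  rw [h]
  refine setIntegral_congr_fun (hS c d).1.measurableSet fun q hq => ?_
  simp only [smul_eq_mul]
  rw [hΨ q hq, alt_det, abs_of_pos ((hS c d).2.2.2.2 q hq), symm_tr D hq]
  ring

/-- the product of a form with a function on the manifold -/
def mulF (D : Model M) (ρ : M → ℝ) {k : ℕ} (w : Idx → V → Alt k) : Idx → V → Alt k :=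
  fun c q => ρ ((D.φ c).symm q) • w c q

theorem mulF_isF (D : Model M) {ρ : M → ℝ} (hρ : ∀ c, ContDiff ℝ ∞ fun q => ρ ((D.φ c).symm q))
    {k : ℕ} {w : Idx → V → Alt k} (hw : IsF k w) : IsF k (mulF D ρ w) := by
  refine ⟨fun c => (hρ c).smul (hw.smooth c), fun c d q hq => ?_⟩
  simp only [mulF]
  rw [hw.compat c d q hq, symm_tr D hq]
  rfl

theorem taskStokes : TaskSmooth → TaskStokes := by
  intro hS M _ _ _ D β hβ hpos
  obtain ⟨N, ci, ρ, K, hρs, hK, hρK, hρ0, hρ1⟩ := partition hS D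
  -- the local pieces
  let Ψ : Fin N → Idx → V → V [⋀^Fin (7 + 1)]→L[ℝ] ℝ := fun i c q =>
    extDeriv (mulF D (ρ i) β c) q
  have hΨF : ∀ i, IsF 7 (mulF D (ρ i) β) := fun i => mulF_isF D (hρs i) hβ
  have hΨc : ∀ i c d, ∀ q ∈ O c d,
      Ψ i c q = (Ψ i d (tr c d q)).compContinuousLinearMap (fderiv ℝ (tr c d) q) :=
    fun i c d q hq => ext_compat hS (hΨF i) c d hq
  -- support of the functions
  have hρoff : ∀ i c q, (D.φ c).symm q ∉ (D.φ (ci i)).symm '' K i →
      ρ i ((D.φ c).symm q) = 0 := by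
    intro i c q hq
    by_contra hne
    exact hq (hρK i _ hne)
  have hΨoff : ∀ i c q, (D.φ c).symm q ∉ (D.φ (ci i)).symm '' K i → Ψ i c q = 0 := by
    intro i c q hq
    apply extDeriv_of_eventually_zero
    have h1 : ∀ᶠ z in 𝓝 q, (D.φ c).symm z ∈ ((D.φ (ci i)).symm '' K i)ᶜ :=
      (symm_cont D c).continuousAt.preimage_mem_nhds
        ((closed_image D (ci i) (hK i)).isOpen_compl.mem_nhds hq)
    filter_upwards [h1] with z hz
    simp only [mulF, hρoff i c z hz, zero_smul]
  have hsrc : ∀ i c q, (D.φ c).symm q ∈ (D.φ (ci i)).symm '' K i → q ∈ O c (ci i) := by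
    rintro i c q ⟨z, -, hz⟩
    rw [← D.overlap c (ci i) q, ← hz]
    exact symm_mem D _ _
  have hown : ∀ i q, q ∉ K i → (D.φ (ci i)).symm q ∉ (D.φ (ci i)).symm '' K i := by
    rintro i q hq ⟨z, hz, hzq⟩
    apply hq
    have := congrArg (D.φ (ci i)) hzq
    rw [right_inv, right_inv] at this
    exact this ▸ hz
  -- continuity
  have hcont : ∀ i c (v : Fin (7 + 1) → V), Continuous fun q => Ψ i c q v := by
    intro i c v
    have h1 : Continuous fun q => extDeriv (mulF D (ρ i) β c) q := by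
      have h2 : Continuous (fderiv ℝ (mulF D (ρ i) β c)) :=
        ((hΨF i).smooth c).continuous_fderiv (by simp)
      exact (ContinuousAlternatingMap.alternatizeUncurryFinCLM ℝ V ℝ).continuous.comp h2
    exact (ContinuousAlternatingMap.apply ℝ V ℝ v).continuous.comp h1
  have hcont0 : ∀ c (v : Fin (7 + 1) → V), Continuous fun q =>
      (extDeriv (β c) q : V [⋀^Fin (7 + 1)]→L[ℝ] ℝ) v := by
    intro c v
    have h1 : Continuous fun q => extDeriv (β c) q := by
      have h2 : Continuous (fderiv ℝ (β c)) := (hβ.smooth c).continuous_fderiv (by simp)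
      exact (ContinuousAlternatingMap.alternatizeUncurryFinCLM ℝ V ℝ).continuous.comp h2
    exact (ContinuousAlternatingMap.apply ℝ V ℝ v).continuous.comp h1
  have hcomp : ∀ i, HasCompactSupport fun q => ρ i ((D.φ (ci i)).symm q) := fun i =>
    HasCompactSupport.intro (hK i) fun q hq => hρoff i _ q (hown i q hq)
  have hcompΨ : ∀ i (v : Fin (7 + 1) → V), HasCompactSupport fun q => Ψ i (ci i) q v := fun i v =>
    HasCompactSupport.intro (hK i) fun q hq => by rw [hΨoff i _ q (hown i q hq)]; rfl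
  -- the integrals
  have hA : ∀ i j, ∫ q, ρ j ((D.φ (ci j)).symm q) * Ψ i (ci j) q rb =
      ∫ q, ρ j ((D.φ (ci i)).symm q) * Ψ i (ci i) q rb := by
    intro i j
    have e1 : ∫ q in O (ci j) (ci i), ρ j ((D.φ (ci j)).symm q) * Ψ i (ci j) q rb =
        ∫ q, ρ j ((D.φ (ci j)).symm q) * Ψ i (ci j) q rb := by
      apply setIntegral_eq_integral_of_forall_compl_eq_zero
      intro q hq
      rw [hΨoff i (ci j) q (fun h => hq (hsrc i _ q h))]
      simp
    have e2 : ∫ q in O (ci i) (ci j), ρ j ((D.φ (ci i)).symm q) * Ψ i (ci i) q rb =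
        ∫ q, ρ j ((D.φ (ci i)).symm q) * Ψ i (ci i) q rb := by
      apply setIntegral_eq_integral_of_forall_compl_eq_zero
      intro q hq
      rw [hρoff j (ci i) q (fun h => hq (hsrc j _ q h))]
      simp
    rw [← e1, ← e2]
    exact change hS D (ci j) (ci i) (ρ j) (Ψ i) (hΨc i _ _)
  have hB : ∀ i, ∑ j, ∫ q, ρ j ((D.φ (ci j)).symm q) * Ψ i (ci j) q rb = 0 := by
    intro i
    simp_rw [hA i]
    rw [← integral_finsetSum]
    · have : ∀ q, ∑ j, ρ j ((D.φ (ci i)).symm q) * Ψ i (ci i) q rb = Ψ i (ci i) q rb := by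
        intro q
        rw [← Finset.sum_mul, hρ1, one_mul]
      simp_rw [this]
      refine int_extDeriv ((hΨF i).smooth (ci i)) ?_ rb
      refine HasCompactSupport.intro (hK i) fun q hq => ?_
      simp only [mulF, hρoff i _ q (hown i q hq), zero_smul]
    · intro j _
      exact (((hρs j (ci i)).continuous).mul (hcont i _ rb)).integrable_of_hasCompactSupport
        (hcompΨ i rb).mul_left
  have hsumΨ : ∀ c q, ∑ i, Ψ i c q rb = (extDeriv (β c) q : V [⋀^Fin (7 + 1)]→L[ℝ] ℝ) rb := by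
    intro c q
    have h1 : ∀ i, Ψ i c q rb = ∑ k : Fin (7 + 1), (-1 : ℝ) ^ (k : ℕ) *
        fderiv ℝ (fun z => mulF D (ρ i) β c z (k.removeNth rb)) q (rb k) := by
      intro i
      simp only [Ψ]
      rw [extDeriv_apply (((hΨF i).smooth c).contDiffAt.differentiableAt (by simp))]
      refine Finset.sum_congr rfl fun k _ => ?_
      rw [zsmul_eq_mul]
      push_cast
      rfl
    have h2 : (extDeriv (β c) q : V [⋀^Fin (7 + 1)]→L[ℝ] ℝ) rb =
        ∑ k : Fin (7 + 1), (-1 : ℝ) ^ (k : ℕ) *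
        fderiv ℝ (fun z => β c z (k.removeNth rb)) q (rb k) := by
      rw [extDeriv_apply ((hβ.smooth c).contDiffAt.differentiableAt (by simp))]
      refine Finset.sum_congr rfl fun k _ => ?_
      rw [zsmul_eq_mul]
      push_cast
      rfl
    simp_rw [h1]
    rw [h2, Finset.sum_comm]
    refine Finset.sum_congr rfl fun k _ => ?_
    rw [← Finset.mul_sum]
    congr 1
    have hdi : ∀ i, DifferentiableAt ℝ (fun z => mulF D (ρ i) β c z (k.removeNth rb)) q :=
      fun i => ((ContinuousAlternatingMap.apply ℝ V ℝ (k.removeNth rb)).contDiff.comp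
        ((hΨF i).smooth c)).contDiffAt.differentiableAt (by simp)
    have h3 : (fun z => β c z (k.removeNth rb)) =
        fun z => ∑ i, mulF D (ρ i) β c z (k.removeNth rb) := by
      funext z
      simp only [mulF, ContinuousAlternatingMap.smul_apply, smul_eq_mul]
      rw [← Finset.sum_mul, hρ1, one_mul]
    rw [h3, fderiv_fun_sum (fun i _ => hdi i)]
    simp
  have hC : ∑ j, ∫ q, ρ j ((D.φ (ci j)).symm q) *
      (extDeriv (β (ci j)) q : V [⋀^Fin (7 + 1)]→L[ℝ] ℝ) rb = 0 := by
    have h1 : ∀ j, ∫ q, ρ j ((D.φ (ci j)).symm q) *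
        (extDeriv (β (ci j)) q : V [⋀^Fin (7 + 1)]→L[ℝ] ℝ) rb =
        ∑ i, ∫ q, ρ j ((D.φ (ci j)).symm q) * Ψ i (ci j) q rb := by
      intro j
      rw [← integral_finsetSum]
      · simp_rw [← Finset.mul_sum, hsumΨ]
      · intro i _
        exact (((hρs j (ci j)).continuous).mul (hcont i _ rb)).integrable_of_hasCompactSupport
          (hcomp j).mul_right
    simp_rw [h1]
    rw [Finset.sum_comm]
    exact Finset.sum_eq_zero fun i _ => hB i
  have hnn : ∀ j q, 0 ≤ ρ j ((D.φ (ci j)).symm q) *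
      (extDeriv (β (ci j)) q : V [⋀^Fin (7 + 1)]→L[ℝ] ℝ) rb := fun j q =>
    mul_nonneg (hρ0 j _) (hpos _ q)
  have hzero : ∀ j q, ρ j ((D.φ (ci j)).symm q) *
      (extDeriv (β (ci j)) q : V [⋀^Fin (7 + 1)]→L[ℝ] ℝ) rb = 0 := by
    intro j
    have h1 := (Finset.sum_eq_zero_iff_of_nonneg
      (fun j _ => integral_nonneg (hnn j))).1 hC j (Finset.mem_univ j)
    have hct : Continuous fun q => ρ j ((D.φ (ci j)).symm q) *
        (extDeriv (β (ci j)) q : V [⋀^Fin (7 + 1)]→L[ℝ] ℝ) rb :=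
      ((hρs j (ci j)).continuous).mul (hcont0 _ rb)
    have hint : Integrable fun q => ρ j ((D.φ (ci j)).symm q) *
        (extDeriv (β (ci j)) q : V [⋀^Fin (7 + 1)]→L[ℝ] ℝ) rb :=
      hct.integrable_of_hasCompactSupport (hcomp j).mul_right
    rw [integral_eq_zero_iff_of_nonneg (hnn j) hint] at h1
    have h2 := (Continuous.ae_eq_iff_eq volume hct continuous_const).1 h1
    intro q
    exact congrFun h2 q
  intro c q
  obtain ⟨j, hj⟩ : ∃ j, ρ j ((D.φ c).symm q) ≠ 0 := by
    by_contra hne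
    push Not at hne
    have := hρ1 ((D.φ c).symm q)
    simp [hne] at this
  have hq : q ∈ O c (ci j) := by
    by_contra hq
    exact hj (hρoff j c q fun h => hq (hsrc j c q h))
  rw [ext_compat hS hβ c (ci j) hq]
  have h3 := alt_det (extDeriv (β (ci j)) (tr c (ci j) q)) (fderiv ℝ (tr c (ci j)) q)
  rw [h3]
  have h4 := hzero j (tr c (ci j) q)
  rw [symm_tr D hq] at h4
  rcases mul_eq_zero.1 h4 with h | h
  · exact absurd h hj
  · rw [h, mul_zero]

end Pool.Agent.TH940.SD
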