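import Pool.Agent.TH179.SD.Geo2

/-!
# Project SD: basic facts on the manifold with seven charts, partitions of unity
-/

open scoped ContDiff Topology
open MeasureTheory Set

noncomputable section

namespace Pool.Agent.TH940.SD

open Pool.Agent.TH179.SD

variable {M : Type} [TopologicalSpace M]

theorem symm_mem (D : Model M) (c : Idx) (q : V) : (D.φ c).symm q ∈ (D.φ c).source :=
  (D.φ c).map_target (by rw [D.target]; trivial)

theorem right_inv (D : Model M) (c : Idx) (q : V) : D.φ c ((D.φ c).symm q) = q :=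
  (D.φ c).right_inv (by rw [D.target]; trivial)

theorem symm_cont (D : Model M) (c : Idx) : Continuous (D.φ c).symm := by
  rw [← continuousOn_univ, ← D.target c]
  exact (D.φ c).continuousOn_symm

theorem symm_tr (D : Model M) {c d : Idx} {q : V} (hq : q ∈ O c d) :
    (D.φ d).symm (tr c d q) = (D.φ c).symm q := by
  rw [← D.trans c d q hq]
  exact (D.φ d).left_inv ((D.overlap c d q).2 hq)

open Classical in
/-- extension by zero of a function on the chart `c` -/
def ex (D : Model M) (c : Idx) (f : V → ℝ) (x : M) : ℝ :=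
  if x ∈ (D.φ c).source then f (D.φ c x) else 0

theorem closed_image [T2Space M] (D : Model M) (c : Idx) {K : Set V} (hK : IsCompact K) :
    IsClosed ((D.φ c).symm '' K) :=
  (hK.image (symm_cont D c)).isClosed

theorem ex_smooth [T2Space M] (hS : TaskSmooth) (D : Model M) (c : Idx) {f : V → ℝ}
    (hf : ContDiff ℝ ∞ f) {K : Set V} (hK : IsCompact K) (h0 : ∀ y, y ∉ K → f y = 0) (d : Idx) :
    ContDiff ℝ ∞ (fun y => ex D c f ((D.φ d).symm y)) := by
  rw [contDiff_iff_contDiffAt]
  intro y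
  by_cases hy : y ∈ O d c
  · have h1 : ContDiffAt ℝ ∞ (tr d c) y :=
      (hS d c).2.2.1.contDiffAt ((hS d c).1.mem_nhds hy)
    refine (hf.contDiffAt.comp y h1).congr_of_eventuallyEq ?_
    filter_upwards [(hS d c).1.mem_nhds hy] with z hz
    simp only [ex, (D.overlap d c z).2 hz, if_true, Function.comp_apply]
    rw [D.trans d c z hz]
  · have hs : (D.φ d).symm y ∉ (D.φ c).source := fun h => hy ((D.overlap d c y).1 h)
    have hcl := closed_image D c hK
    have hn : (D.φ d).symm y ∉ (D.φ c).symm '' K := by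
      rintro ⟨z, -, hzy⟩
      exact hs (hzy ▸ symm_mem D c z)
    have h1 : ∀ᶠ z in 𝓝 y, (D.φ d).symm z ∈ ((D.φ c).symm '' K)ᶜ :=
      (symm_cont D d).continuousAt.preimage_mem_nhds (hcl.isOpen_compl.mem_nhds hn)
    have h2 : (fun y => ex D c f ((D.φ d).symm y)) =ᶠ[𝓝 y] fun _ => 0 := by
      filter_upwards [h1] with z hz
      by_cases hzs : (D.φ d).symm z ∈ (D.φ c).source
      · simp only [ex, hzs, if_true]
        apply h0
        intro hK'
        exact hz ⟨_, hK', (D.φ c).left_inv hzs⟩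
      · simp only [ex, hzs, if_false]
    exact contDiffAt_const.congr_of_eventuallyEq h2

/-- a smooth partition of unity subordinate to the charts -/
theorem partition [CompactSpace M] [T2Space M] (hS : TaskSmooth) (D : Model M) :
    ∃ (N : ℕ) (c : Fin N → Idx) (ρ : Fin N → M → ℝ) (K : Fin N → Set V),
      (∀ i d, ContDiff ℝ ∞ (fun y => ρ i ((D.φ d).symm y))) ∧ (∀ i, IsCompact (K i)) ∧
      (∀ i x, ρ i x ≠ 0 → x ∈ (D.φ (c i)).symm '' K i) ∧ (∀ i x, 0 ≤ ρ i x) ∧
      ∀ x, ∑ i, ρ i x = 1 := by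
  have hloc : ∀ x : M, ∃ (c : Idx) (K : Set V) (f : V → ℝ) (W : Set M),
      IsCompact K ∧ ContDiff ℝ ∞ f ∧ (∀ y, y ∉ K → f y = 0) ∧ (∀ y, 0 ≤ f y) ∧
      W ∈ 𝓝 x ∧ ∀ x' ∈ W, ex D c f x' = 1 := by
    intro x
    obtain ⟨c, hxs⟩ := D.cover x
    let f : ContDiffBump (D.φ c x) := ⟨1, 2, by norm_num, by norm_num⟩
    refine ⟨c, Metric.closedBall (D.φ c x) 2, f, (D.φ c).source ∩ D.φ c ⁻¹' Metric.ball (D.φ c x) 1,
      isCompact_closedBall _ _, f.contDiff, fun y hy => ?_, fun y => f.nonneg, ?_, ?_⟩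
    · apply f.zero_of_le_dist
      rw [Metric.mem_closedBall, not_le] at hy
      exact hy.le
    · exact Filter.inter_mem ((D.φ c).open_source.mem_nhds hxs)
        (((D.φ c).continuousAt hxs).preimage_mem_nhds (Metric.ball_mem_nhds _ (by norm_num)))
    · rintro x' ⟨hx1, hx2⟩
      simp only [ex, hx1, if_true]
      apply f.one_of_mem_closedBall
      exact Metric.ball_subset_closedBall hx2
  choose c K f W hK hf hf0 hfn hW hW1 using hloc
  obtain ⟨t, -, ht⟩ := isCompact_univ.elim_nhds_subcover W (fun x _ => hW x)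
  let e := t.equivFin
  let G : Fin t.card → M → ℝ := fun i => ex D (c (e.symm i)) (f (e.symm i))
  have hGn : ∀ i x, 0 ≤ G i x := by
    intro i x
    simp only [G, ex]
    split_ifs
    · exact hfn _ _
    · exact le_rfl
  have hGs : ∀ i d, ContDiff ℝ ∞ (fun y => G i ((D.φ d).symm y)) :=
    fun i d => ex_smooth hS D _ (hf _) (hK _) (hf0 _) d
  have hSp : ∀ x, 0 < ∑ i, G i x := by
    intro x
    obtain ⟨z, hz, hxz⟩ := Set.mem_iUnion₂.1 (ht (Set.mem_univ x))
    have h1 : G (e ⟨z, hz⟩) x = 1 := by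
      simp only [G, Equiv.symm_apply_apply]
      exact hW1 z x hxz
    have h2 : G (e ⟨z, hz⟩) x ≤ ∑ i, G i x :=
      Finset.single_le_sum (fun i _ => hGn i x) (Finset.mem_univ _)
    linarith
  refine ⟨t.card, fun i => c (e.symm i), fun i x => G i x / ∑ j, G j x,
    fun i => K (e.symm i), fun i d => ?_, fun i => hK _, fun i x hx => ?_,
    fun i x => div_nonneg (hGn i x) (hSp x).le, fun x => ?_⟩
  · exact (hGs i d).div (ContDiff.sum fun j _ => hGs j d) fun y => (hSp _).ne'
  · have hne : G i x ≠ 0 := by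
      intro h0
      apply hx
      show G i x / ∑ j, G j x = 0
      rw [h0, zero_div]
    by_cases hxs : x ∈ (D.φ (c (e.symm i))).source
    · simp only [G, ex, hxs, if_true] at hne
      refine ⟨_, ?_, (D.φ (c (e.symm i))).left_inv hxs⟩
      by_contra hnK
      exact hne (hf0 _ _ hnK)
    · simp only [G, ex, hxs, if_false] at hne
      exact absurd rfl hne
  · rw [← Finset.sum_div, div_self (hSp x).ne']

end Pool.Agent.TH940.SD
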